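import Pool.Agent.L0h31.KQ.Defs

/-!
# Project KQ (helper31), module S_FIB: the law of the normalised element
-/

set_option autoImplicit false
set_option linter.unusedSectionVars false

namespace Pool.Agent.L0h38.KQF

open MeasureTheory Set Pool.Agent.L0h31.KQ
open scoped ENNReal

/-- Haar measures and linear isomorphisms -/
theorem haar_lin {V W : Type} [NormedAddCommGroup V] [NormedSpace ℝ V] [FiniteDimensional ℝ V]
    [MeasurableSpace V] [BorelSpace V] [NormedAddCommGroup W] [NormedSpace ℝ W]
    [FiniteDimensional ℝ W] [MeasurableSpace W] [BorelSpace W] (μ : Measure V)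
    [μ.IsAddHaarMeasure] (ν : Measure W) [ν.IsAddHaarMeasure] (e : V ≃ₗ[ℝ] W) :
    ∃ c : ℝ≥0∞, c ≠ 0 ∧ c ≠ ⊤ ∧ ∀ φ : W → ℝ≥0∞, Measurable φ →
      ∫⁻ w, φ w ∂ν = c * ∫⁻ v, φ (e v) ∂μ := by
  have h1 : (μ.map e.toContinuousLinearEquiv).IsAddHaarMeasure :=
    e.toContinuousLinearEquiv.isAddHaarMeasure_map μ
  have h2 := Measure.isAddLeftInvariant_eq_smul ν (μ.map e.toContinuousLinearEquiv)
  refine ⟨(Measure.addHaarScalarFactor ν (μ.map e.toContinuousLinearEquiv) : ℝ≥0∞), ?_,
    ENNReal.coe_ne_top, fun φ hφ => ?_⟩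
  · rw [Ne, ENNReal.coe_eq_zero]
    exact (Measure.addHaarScalarFactor_pos_of_isAddHaarMeasure _ _).ne'
  · conv_lhs => rw [h2]
    rw [lintegral_smul_measure, lintegral_map hφ e.toContinuousLinearEquiv.continuous.measurable]
    rfl

section alg

variable {A B : Type} [CStarAlgebra A] [CStarAlgebra B] (D : CE A B)

lemma es_coe (w : Hs B) : ((D.es w : Hs A) : A) = D.e (w : B) := rfl

lemma cg_coe (p : B) (w : Hs B) : ((cg p w : Hs B) : B) = p * (w : B) * star p := rfl

lemma mem_N {w : Hs B} : w ∈ D.N ↔ D.e (w : B) = 0 := by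
  rw [CE.N, LinearMap.mem_ker]
  constructor
  · intro h
    have := congrArg (fun z : Hs A => (z : A)) h
    exact this
  · intro h
    ext
    exact h

/-- `e` of a conjugate -/
lemma e_cg (u : A) (w : B) : D.e (D.i u * w * star (D.i u)) = u * D.e w * star u := by
  rw [← map_star, D.bim]

lemma e_conj_x0 {x0 : Hs B} (h1 : D.e (x0 : B) = 1) (a : A) : D.e (D.i a * (x0 : B)) = a := by
  have := D.bim a 1 (x0 : B)
  rw [map_one, mul_one, h1, mul_one, mul_one] at this
  exact this

lemma es_surj {x0 : Hs B} (h1 : D.e (x0 : B) = 1) : LinearMap.range D.es = ⊤ := by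
  rw [LinearMap.range_eq_top]
  intro s
  let u : B := D.i (s : A) * (x0 : B)
  have hs : star (s : A) = s := s.2
  have hsa : star ((1 / 2 : ℝ) • (u + star u)) = (1 / 2 : ℝ) • (u + star u) := by
    rw [star_smul, star_add, star_star, star_trivial, add_comm]
  refine ⟨⟨(1 / 2 : ℝ) • (u + star u), hsa⟩, ?_⟩
  ext
  change D.e ((1 / 2 : ℝ) • (u + star u)) = (s : A)
  have e1 : D.e ((1 / 2 : ℝ) • (u + star u)) = (1 / 2 : ℝ) • D.e (u + star u) := by
    rw [← Complex.coe_smul, map_smul, Complex.coe_smul]
  rw [e1, map_add, D.st, e_conj_x0 D h1, hs, ← two_smul ℝ, smul_smul]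
  norm_num

/-- the action of `u` on the kernel -/
noncomputable def NT (u : A) : D.N →ₗ[ℝ] D.N :=
  ((cg (D.i u)).comp D.N.subtype).codRestrict D.N (by
    intro x
    have hx : D.e ((x : Hs B) : B) = 0 := (mem_N D).1 x.2
    rw [mem_N]
    change D.e (D.i u * ((x : Hs B) : B) * star (D.i u)) = 0
    rw [e_cg, hx, mul_zero, zero_mul])

lemma NT_coe (u : A) (x : D.N) : ((NT D u x : D.N) : Hs B) = cg (D.i u) (x : Hs B) := rfl

lemma NT_comp (u v : A) : (NT D u).comp (NT D v) = NT D (u * v) := by
  ext x
  change D.i u * (D.i v * ((x : Hs B) : B) * star (D.i v)) * star (D.i u) =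
    D.i (u * v) * ((x : Hs B) : B) * star (D.i (u * v))
  rw [map_mul, star_mul]
  simp only [mul_assoc]

lemma NT_one : NT D 1 = LinearMap.id := by
  ext x
  change D.i 1 * ((x : Hs B) : B) * star (D.i 1) = ((x : Hs B) : B)
  rw [map_one, star_one, one_mul, mul_one]

lemma NT_det {u : A} (hu : IsUnit u) : LinearMap.det (NT D u) ≠ 0 := by
  obtain ⟨v, rfl⟩ := hu
  intro h
  have h1 := congrArg LinearMap.det (NT_comp D (v⁻¹ : Aˣ) (v : A))
  rw [LinearMap.det_comp, h, mul_zero, Units.inv_mul, NT_one, LinearMap.det_id] at h1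
  exact zero_ne_one h1

lemma cg_mem {p : B} (hp : IsUnit p) (w : Hs B) : cg p w ∈ PD B ↔ w ∈ PD B := by
  obtain ⟨p, rfl⟩ := hp
  constructor
  · rintro ⟨q, hq, h⟩
    refine ⟨(p⁻¹ : Bˣ) * q, (Units.isUnit _).mul hq, ?_⟩
    rw [cg_coe] at h
    have h2 : (w : B) = (p⁻¹ : Bˣ) * ((p : B) * (w : B) * star (p : B)) * star ((p⁻¹ : Bˣ) : B) := by
      have e1 : star (p : B) * star ((p⁻¹ : Bˣ) : B) = 1 := by
        rw [← star_mul, Units.inv_mul, star_one]
      calc (w : B) = ((p⁻¹ : Bˣ) * (p : B)) * (w : B) * (star (p : B) * star ((p⁻¹ : Bˣ) : B)) := by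
            rw [e1, Units.inv_mul, one_mul, mul_one]
        _ = _ := by simp only [mul_assoc]
    rw [h2, h, star_mul]
    simp only [mul_assoc]
  · rintro ⟨q, hq, h⟩
    refine ⟨p * q, p.isUnit.mul hq, ?_⟩
    rw [cg_coe, h, star_mul]
    simp only [mul_assoc]

lemma es_mem {w : Hs B} (hw : w ∈ PD B) : D.es w ∈ PD A := by
  obtain ⟨p, hp, h⟩ := hw
  obtain ⟨a, ha, h'⟩ := D.pos p hp
  refine ⟨a, ha, ?_⟩
  rw [es_coe, h, h']

end alg

section meas

variable {A B : Type} [CStarAlgebra A] [CStarAlgebra B] [FiniteDimensional ℂ A]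
  [FiniteDimensional ℂ B] (D : CE A B)

lemma cont_i : Continuous D.i := by
  have : Continuous (D.i.toAlgHom.toLinearMap : A →ₗ[ℂ] B) := LinearMap.continuous_of_finiteDimensional _
  exact this

lemma cont_det : Continuous fun u : A => LinearMap.det (NT D u) := by
  have : FiniteDimensional ℝ B := FiniteDimensional.complexToReal B
  let b := Module.finBasis ℝ D.N
  have h : ∀ u : A, LinearMap.det (NT D u) = (LinearMap.toMatrix b b (NT D u)).det :=
    fun u => (LinearMap.det_toMatrix b (NT D u)).symm
  simp_rw [h]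
  refine Continuous.matrix_det ?_
  refine continuous_matrix fun j k => ?_
  simp only [LinearMap.toMatrix_apply]
  have h1 : Continuous fun u : A => NT D u (b k) := by
    refine continuous_induced_rng.2 ?_
    refine continuous_induced_rng.2 ?_
    change Continuous fun u : A => D.i u * ((b k : Hs B) : B) * star (D.i u)
    exact ((cont_i D).mul continuous_const).mul (continuous_star.comp (cont_i D))
  exact (LinearMap.continuous_of_finiteDimensional (b.coord j)).comp h1

end meas

/-- F1, from the measurability of the strictly positive elements -/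
theorem fib (hPD : S_PD) : S_FIB := by
  classical
  intro A B _ _ _ _ _ _ _ _ D x0 hx0 he T hT hTs ν _ lam _ νA _ y hy hym
  have fB : FiniteDimensional ℝ B := FiniteDimensional.complexToReal B
  have fA : FiniteDimensional ℝ A := FiniteDimensional.complexToReal A
  obtain ⟨σ, hσ⟩ := LinearMap.exists_rightInverse_of_surjective D.es (es_surj D he)
  have hσ' : ∀ s, D.es (σ s) = s := fun s => LinearMap.congr_fun hσ s
  -- the linear isomorphism
  let E : (Hs A × D.N) ≃ₗ[ℝ] Hs B :=
    { toFun := fun z => σ z.1 + (z.2 : Hs B)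
      map_add' := by
        intro z z'
        simp only [Prod.fst_add, Prod.snd_add, map_add, Submodule.coe_add]
        abel
      map_smul' := by
        intro c z
        simp only [Prod.smul_fst, Prod.smul_snd, map_smul, Submodule.coe_smul, smul_add,
          RingHom.id_apply]
      invFun := fun w => (D.es w, ⟨w - σ (D.es w), by
        rw [CE.N, LinearMap.mem_ker, map_sub, hσ', sub_self]⟩)
      left_inv := by
        rintro ⟨s, x⟩
        have hx : D.es (x : Hs B) = 0 := x.2
        have h1 : D.es (σ s + (x : Hs B)) = s := by rw [map_add, hσ', hx, add_zero]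
        refine Prod.ext h1 ?_
        apply Subtype.ext
        change σ s + (x : Hs B) - σ (D.es (σ s + (x : Hs B))) = (x : Hs B)
        rw [h1]; abel
      right_inv := by
        intro w
        change σ (D.es w) + (w - σ (D.es w)) = w
        abel }
  have hE : ∀ s x, E (s, x) = σ s + (x : Hs B) := fun _ _ => rfl
  have hesE : ∀ s x, D.es (E (s, x)) = s := by
    intro s x
    have hx : D.es (x : Hs B) = 0 := x.2
    rw [hE, map_add, hσ', hx, add_zero]
  have i1 : (νA.prod lam).IsAddHaarMeasure := Measure.prod.instIsAddHaarMeasure _ _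
  obtain ⟨c, hc0, hc1, hc⟩ := haar_lin (νA.prod lam) ν E
  let ρ : Hs A → ℝ≥0∞ := (PD A).indicator fun s =>
    c * ENNReal.ofReal |(LinearMap.det (NT D (T s)))⁻¹|
  have hρ : Measurable ρ := by
    refine Measurable.indicator ?_ (hPD A)
    refine Measurable.const_mul ?_ _
    refine ENNReal.measurable_ofReal.comp ?_
    exact (((cont_det D).measurable.comp hT).inv).abs
  refine ⟨ρ, hρ, fun Φ hΦ => ?_⟩
  have hPDB : MeasurableSet (PD B) := hPD B
  have hEm : Measurable E := E.toContinuousLinearEquiv.continuous.measurable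
  have hesm : Measurable D.es := (LinearMap.continuous_of_finiteDimensional D.es).measurable
  have hm : Measurable fun w : Hs B => Φ (D.es w, y w) := hΦ.comp (hesm.prodMk hym)
  let K : Set D.N := {z | x0 + (z : Hs B) ∈ PD B}
  have hK : MeasurableSet K := by
    have : Measurable fun z : D.N => x0 + (z : Hs B) := measurable_subtype_coe.const_add x0
    exact this hPDB
  rw [← lintegral_indicator hPDB, hc _ (hm.indicator hPDB), lintegral_prod]
  swap
  · exact ((hm.indicator hPDB).comp hEm).aemeasurable
  rw [← lintegral_const_mul' _ _ hc1]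
  refine lintegral_congr fun s => ?_
  change c * ∫⁻ x, (PD B).indicator (fun w => Φ (D.es w, y w)) (E (s, x)) ∂lam =
    ρ s * ∫⁻ z in K, Φ (s, z) ∂lam
  by_cases hs : s ∈ PD A
  · obtain ⟨hu, hs1⟩ := hTs s hs
    have hρs : ρ s = c * ENNReal.ofReal |(LinearMap.det (NT D (T s)))⁻¹| := indicator_of_mem hs _
    have hiu : IsUnit (D.i (T s)) := hu.map D.i
    -- the shift
    have hes1 : D.e ((σ s : Hs B) : B) = (s : A) := congrArg (fun z : Hs A => (z : A)) (hσ' s)
    have hbN : cg (D.i (T s)) (σ s) - x0 ∈ D.N := by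
      rw [mem_N]
      change D.e (D.i (T s) * ((σ s : Hs B) : B) * star (D.i (T s)) - (x0 : B)) = 0
      rw [map_sub, e_cg, hes1, hs1, he, sub_self]
    set bs : D.N := ⟨cg (D.i (T s)) (σ s) - x0, hbN⟩ with hbs
    have key : ∀ x : D.N, x0 + ((bs + NT D (T s) x : D.N) : Hs B) = cg (D.i (T s)) (E (s, x)) := by
      intro x
      rw [Submodule.coe_add, NT_coe, hE, map_add]
      change x0 + (cg (D.i (T s)) (σ s) - x0 + _) = _
      abel
    have e : ∀ x : D.N, (PD B).indicator (fun w => Φ (D.es w, y w)) (E (s, x)) =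
        K.indicator (fun z => Φ (s, z)) (bs + NT D (T s) x) := by
      intro x
      by_cases h : E (s, x) ∈ PD B
      · have hK' : bs + NT D (T s) x ∈ K := by
          change x0 + ((bs + NT D (T s) x : D.N) : Hs B) ∈ PD B
          rw [key]
          exact (cg_mem hiu _).2 h
        rw [indicator_of_mem h, indicator_of_mem hK', hesE]
        have hyx : y (E (s, x)) = bs + NT D (T s) x := by
          apply Subtype.ext
          apply Subtype.ext
          rw [hy _ h, hesE]
          have h2 := congrArg (fun z : Hs B => (z : B)) (key x)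
          have h3 : ((x0 + ((bs + NT D (T s) x : D.N) : Hs B) : Hs B) : B) =
            (x0 : B) + (((bs + NT D (T s) x : D.N) : Hs B) : B) := rfl
          have h4 : (x0 : B) + (((bs + NT D (T s) x : D.N) : Hs B) : B) =
            D.i (T s) * (E (s, x) : B) * star (D.i (T s)) := by rw [← h3]; exact h2
          rw [← h4]; abel
        rw [hyx]
      · have hK' : bs + NT D (T s) x ∉ K := by
          intro hK'
          change x0 + ((bs + NT D (T s) x : D.N) : Hs B) ∈ PD B at hK'
          rw [key] at hK'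
          exact h ((cg_mem hiu _).1 hK')
        rw [indicator_of_notMem h, indicator_of_notMem hK']
    simp_rw [e]
    have hdet : LinearMap.det (NT D (T s)) ≠ 0 := NT_det D hu
    have hLm : Measurable (NT D (T s)) :=
      (LinearMap.continuous_of_finiteDimensional (NT D (T s))).measurable
    have hΦs : Measurable fun z : D.N => Φ (s, z) := hΦ.comp (measurable_const.prodMk measurable_id)
    have hG : Measurable fun z : D.N => K.indicator (fun z => Φ (s, z)) (bs + z) :=
      (hΦs.indicator hK).comp (measurable_id.const_add bs)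
    have e2 : ∫⁻ x, K.indicator (fun z => Φ (s, z)) (bs + NT D (T s) x) ∂lam =
        ENNReal.ofReal |(LinearMap.det (NT D (T s)))⁻¹| *
          ∫⁻ z, K.indicator (fun z => Φ (s, z)) (bs + z) ∂lam := by
      have hmap : Measure.map (NT D (T s)) lam =
          ENNReal.ofReal |(LinearMap.det (NT D (T s)))⁻¹| • lam :=
        Measure.map_linearMap_addHaar_eq_smul_addHaar (E := D.N) (f := NT D (T s)) lam hdet
      rw [← lintegral_map (f := fun z : D.N => K.indicator (fun z => Φ (s, z)) (bs + z)) hG hLm,
        hmap, lintegral_smul_measure, smul_eq_mul]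
    rw [e2, lintegral_add_left_eq_self (μ := lam) (fun z => K.indicator (fun z => Φ (s, z)) z) bs,
      lintegral_indicator hK, hρs, mul_assoc]
  · have e : ∀ x : D.N, (PD B).indicator (fun w => Φ (D.es w, y w)) (E (s, x)) = 0 := by
      intro x
      refine indicator_of_notMem (fun h => hs ?_) _
      have := es_mem D h
      rwa [hesE] at this
    simp_rw [e]
    have hρs : ρ s = 0 := indicator_of_notMem hs _
    rw [hρs, lintegral_zero, mul_zero, zero_mul]

end Pool.Agent.L0h38.KQF
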